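import Pool.Agent.Q320.TP.Main

set_option autoImplicit false

namespace Pool.Agent.Results.MP_e51b07_al.BlockTwoFive

variable {G : Type*} [Group G]

/-- `S` meets every left coset `g H` in exactly one element -/
def IsLeftTransversal (H : Subgroup G) (S : Set G) : Prop :=
  ∀ g : G, ∃! s, s ∈ S ∧ ∃ h ∈ H, s = g * h

/-- `S` meets every right coset `K g` in exactly one element -/
def IsRightTransversal (K : Subgroup G) (S : Set G) : Prop :=
  ∀ g : G, ∃! s, s ∈ S ∧ ∃ k ∈ K, s = k * g

/-- the common transversal probability `P_G(H, K)`: the number of the left transversals of `H` that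
are right transversals of `K`, divided by `|H| ^ n`, where `n` is the index of `H` -/
noncomputable def P (H K : Subgroup G) : ℚ :=
  ({S : Set G | IsLeftTransversal H S ∧ IsRightTransversal K S}.ncard : ℚ) /
    (Nat.card H : ℚ) ^ H.index

/-- the block diagonal matrix `T` with the blocks `T_i` of size `t_i` all of whose entries are
`1 / t_i` -/
def T {s : ℕ} (t : Fin s → ℕ) : Matrix (Σ i, Fin (t i)) (Σ i, Fin (t i)) ℚ :=
  fun a b => if a.1 = b.1 then 1 / (t a.1 : ℚ) else 0

/-- **The answer to both questions is negative.** For `T = diag(T_1, T_2)` with blocks of sizes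
`t = (2, 5)`, and for `T` with blocks of sizes `t = (1, 2, 5)`, whose permanents are both `12 / 625`,
there are no finite group `G` and subgroups `H`, `K` of the same order with `P_G(H, K) = per(T)`; in
particular there is no subgroup `H` with `P_G(H, H) = per(T)`. The same holds if any number of
further blocks of size one is added. -/
theorem result :
    (∀ (G : Type) [Group G] [Finite G] (H K : Subgroup G), Nat.card H = Nat.card K →
      P H K ≠ (T ![2, 5]).permanent) ∧
    (∀ (G : Type) [Group G] [Finite G] (H K : Subgroup G), Nat.card H = Nat.card K →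
      P H K ≠ (T ![1, 2, 5]).permanent) ∧
    (∀ (s : ℕ) (t : Fin s → ℕ) (i j : Fin s), i ≠ j → t i = 2 → t j = 5 →
      (∀ l, l ≠ i → l ≠ j → t l = 1) → (T t).permanent = 12 / 625 ∧
      ∀ (G : Type) [Group G] [Finite G] (H K : Subgroup G), Nat.card H = Nat.card K →
        P H K ≠ (T t).permanent) := by
  have h3 : ∀ (s : ℕ) (t : Fin s → ℕ) (i j : Fin s), i ≠ j → t i = 2 → t j = 5 →
      (∀ l, l ≠ i → l ≠ j → t l = 1) → (T t).permanent = 12 / 625 := by
    intro s t i j hij hi hj hl
    have h1 : (T t).permanent = ∏ l, Pool.Agent.Q320.TP.ff (t l) :=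
      Pool.Agent.Q320.TP.permanent_block t
    rw [h1, ← Finset.mul_prod_erase Finset.univ _ (Finset.mem_univ i),
      ← Finset.mul_prod_erase (Finset.univ.erase i) _
        (Finset.mem_erase.2 ⟨hij.symm, Finset.mem_univ j⟩), Finset.prod_eq_one, hi, hj,
      Pool.Agent.Q320.TP.ff_two, Pool.Agent.Q320.TP.ff_five]
    · norm_num
    · intro l hl'
      rw [Finset.mem_erase, Finset.mem_erase] at hl'
      rw [hl l hl'.2.1 hl'.1, Pool.Agent.Q320.TP.ff_one]
  have h4 : ∀ (G : Type) [Group G] [Finite G] (H K : Subgroup G), Nat.card H = Nat.card K →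
      P H K ≠ 12 / 625 := fun G _ _ H K hHK => Pool.Agent.Q320.TP.ne_value H K hHK
  refine ⟨?_, ?_, fun s t i j hij hi hj hl => ⟨h3 s t i j hij hi hj hl, ?_⟩⟩
  · intro G _ _ H K hHK
    rw [h3 2 ![2, 5] 0 1 (by decide) rfl rfl (by decide)]
    exact h4 G H K hHK
  · intro G _ _ H K hHK
    rw [h3 3 ![1, 2, 5] 1 2 (by decide) rfl rfl (by decide)]
    exact h4 G H K hHK
  · intro G _ _ H K hHK
    rw [h3 s t i j hij hi hj hl]
    exact h4 G H K hHK

end Pool.Agent.Results.MP_e51b07_al.BlockTwoFive
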